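import Pool.Agent.Helper22.TW.Stmts

/-!
# SPEC: specialization of points at a place
-/

set_option autoImplicit false

namespace Pool.Agent.Helper22.TW

open Pool.Agent.Helper14.BSC Polynomial

section

variable {L M : Type} [Field L] [Field M] {C : ValuationSubring L} {ψ : C →+* M}

/-- `x` lies in the ring and has the value `v` -/
def spec_V (C : ValuationSubring L) (ψ : C →+* M) (x : L) (v : M) : Prop :=
  ∃ h : x ∈ C, ψ ⟨x, h⟩ = v

theorem spec_V_mk {x : L} (h : x ∈ C) : spec_V C ψ x (ψ ⟨x, h⟩) := ⟨h, rfl⟩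

theorem spec_V_add {x y : L} {v w : M} (hx : spec_V C ψ x v) (hy : spec_V C ψ y w) :
    spec_V C ψ (x + y) (v + w) := by
  obtain ⟨h1, rfl⟩ := hx
  obtain ⟨h2, rfl⟩ := hy
  exact ⟨C.add_mem _ _ h1 h2, by rw [← map_add]; rfl⟩

theorem spec_V_mul {x y : L} {v w : M} (hx : spec_V C ψ x v) (hy : spec_V C ψ y w) :
    spec_V C ψ (x * y) (v * w) := by
  obtain ⟨h1, rfl⟩ := hx
  obtain ⟨h2, rfl⟩ := hy
  exact ⟨C.mul_mem _ _ h1 h2, by rw [← map_mul]; rfl⟩

theorem spec_V_neg {x : L} {v : M} (hx : spec_V C ψ x v) : spec_V C ψ (-x) (-v) := by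
  obtain ⟨h1, rfl⟩ := hx
  exact ⟨C.neg_mem _ h1, by rw [← map_neg]; rfl⟩

theorem spec_V_sub {x y : L} {v w : M} (hx : spec_V C ψ x v) (hy : spec_V C ψ y w) :
    spec_V C ψ (x - y) (v - w) := by
  rw [sub_eq_add_neg, sub_eq_add_neg]
  exact spec_V_add hx (spec_V_neg hy)

theorem spec_V_one : spec_V C ψ 1 1 := ⟨C.one_mem, map_one ψ⟩

theorem spec_V_sq {x : L} {v : M} (hx : spec_V C ψ x v) : spec_V C ψ (x ^ 2) (v ^ 2) := by
  rw [pow_two, pow_two]
  exact spec_V_mul hx hx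

theorem spec_V_two : spec_V C ψ 2 2 := by
  have h := spec_V_add (C := C) (ψ := ψ) spec_V_one spec_V_one
  have e1 : (1 : L) + 1 = 2 := by norm_num
  have e2 : (1 : M) + 1 = 2 := by norm_num
  rwa [e1, e2] at h

theorem spec_V_uniq {x : L} {v w : M} (h : spec_V C ψ x v) (h' : spec_V C ψ x w) : v = w := by
  obtain ⟨h1, rfl⟩ := h
  obtain ⟨h2, rfl⟩ := h'
  rfl

/-- the kernel condition -/
def spec_K (C : ValuationSubring L) (ψ : C →+* M) : Prop :=
  ∀ x : C, ψ x = 0 ↔ ((x : L) = 0 ∨ (x : L)⁻¹ ∉ C)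

theorem spec_V_inv (hK : spec_K C ψ) {x : L} {v : M} (hx : spec_V C ψ x v) (hv : v ≠ 0) :
    x ≠ 0 ∧ spec_V C ψ x⁻¹ v⁻¹ := by
  obtain ⟨h1, rfl⟩ := hx
  have h2 := fun h => hv ((hK ⟨x, h1⟩).2 h)
  have hx0 : x ≠ 0 := fun h => h2 (Or.inl h)
  have hi : x⁻¹ ∈ C := by
    by_contra h
    exact h2 (Or.inr h)
  refine ⟨hx0, hi, ?_⟩
  have h3 : ψ ⟨x, h1⟩ * ψ ⟨x⁻¹, hi⟩ = 1 := by
    rw [← map_mul, ← map_one ψ]
    congr 1
    exact Subtype.ext (mul_inv_cancel₀ hx0)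
  exact eq_inv_of_mul_eq_one_right h3

theorem spec_V_div (hK : spec_K C ψ) {x y : L} {v w : M} (hx : spec_V C ψ x v)
    (hy : spec_V C ψ y w) (hw : w ≠ 0) : spec_V C ψ (x / y) (v / w) := by
  rw [div_eq_mul_inv, div_eq_mul_inv]
  exact spec_V_mul hx (spec_V_inv hK hy hw).2

theorem spec_V_notin (hK : spec_K C ψ) {x : L} (hx : x ∉ C) : x ≠ 0 ∧ spec_V C ψ x⁻¹ 0 := by
  have hx0 : x ≠ 0 := fun h => hx (by rw [h]; exact C.zero_mem)
  refine ⟨hx0, ?_⟩
  have hi : x⁻¹ ∈ C := (C.mem_or_inv_mem x).resolve_left hx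
  refine ⟨hi, (hK ⟨x⁻¹, hi⟩).2 (Or.inr ?_)⟩
  show (x⁻¹)⁻¹ ∉ C
  rwa [inv_inv]

variable [CharZero L] [CharZero M] {e : Fin 3 → L} (he : Function.Injective e)
  {b : Fin 3 → M} (hb : Function.Injective b)

omit [CharZero L] [CharZero M] in
theorem spec_y {x y : L} (heb : ∀ i, spec_V C ψ (e i) (b i)) (h : Eqn e x y) (hx : x ∈ C) :
    y ∈ C := by
  by_contra hy
  have hi : y⁻¹ ∈ C := (C.mem_or_inv_mem y).resolve_left hy
  have hy0 : y ≠ 0 := fun h => hy (by rw [h]; exact C.zero_mem)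
  apply hy
  have h1 : y = ((x - e 0) * (x - e 1) * (x - e 2)) * y⁻¹ := by
    rw [← h]
    field_simp
  rw [h1]
  obtain ⟨e0, _⟩ := heb 0
  obtain ⟨e1, _⟩ := heb 1
  obtain ⟨e2, _⟩ := heb 2
  exact C.mul_mem _ _ (C.mul_mem _ _ (C.mul_mem _ _ (sub_mem hx e0) (sub_mem hx e1))
    (sub_mem hx e2)) hi

omit [CharZero L] [CharZero M] in
theorem spec_Eqn {x y : L} (heb : ∀ i, spec_V C ψ (e i) (b i)) (h : Eqn e x y) {v w : M}
    (hx : spec_V C ψ x v) (hy : spec_V C ψ y w) : Eqn b v w := by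
  have h1 := spec_V_sq hy
  have h2 := spec_V_mul (spec_V_mul (spec_V_sub hx (heb 0)) (spec_V_sub hx (heb 1)))
    (spec_V_sub hx (heb 2))
  rw [← h] at h2
  exact spec_V_uniq h1 h2

/-- the specialization of a point -/
def spec_R (C : ValuationSubring L) (ψ : C →+* M) (R : EE e) (S : EE b) : Prop :=
  (∃ (x y : L) (h : Eqn e x y) (v w : M) (h' : Eqn b v w), spec_V C ψ x v ∧ spec_V C ψ y w ∧
    R = EE.pt he x y h ∧ S = EE.pt hb v w h') ∨
  ((R = 0 ∨ ∃ (x y : L) (h : Eqn e x y), x ∉ C ∧ R = EE.pt he x y h) ∧ S = 0)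

theorem spec_ex (heb : ∀ i, spec_V C ψ (e i) (b i)) (R : EE e) :
    ∃ S : EE b, spec_R he hb C ψ R S := by
  rcases EE.cases he R with h | ⟨x, y, h, hR⟩
  · exact ⟨0, Or.inr ⟨Or.inl h, rfl⟩⟩
  · by_cases hx : x ∈ C
    · have hy := spec_y heb h hx
      have h1 : spec_V C ψ x _ := spec_V_mk hx
      have h2 : spec_V C ψ y _ := spec_V_mk hy
      exact ⟨_, Or.inl ⟨x, y, h, _, _, spec_Eqn heb h h1 h2, h1, h2, hR, rfl⟩⟩
    · exact ⟨0, Or.inr ⟨Or.inr ⟨x, y, h, hx, hR⟩, rfl⟩⟩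

theorem spec_uniq {R : EE e} {S S' : EE b} (h : spec_R he hb C ψ R S)
    (h' : spec_R he hb C ψ R S') : S = S' := by
  rcases h with ⟨x, y, h1, v, w, h2, hx, hy, hR, hS⟩ | ⟨hR, hS⟩
  · rcases h' with ⟨x', y', h1', v', w', h2', hx', hy', hR', hS'⟩ | ⟨hR', hS'⟩
    · obtain ⟨rfl, rfl⟩ := EE.pt_inj he (hR.symm.trans hR')
      rw [hS, hS']
      exact EE.pt_congr hb (spec_V_uniq hx hx') (spec_V_uniq hy hy')
    · exfalso
      rcases hR' with h0 | ⟨x', y', h1', hx', h0⟩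
      · exact EE.pt_ne_zero he h1 (hR.symm.trans h0)
      · obtain ⟨rfl, rfl⟩ := EE.pt_inj he (hR.symm.trans h0)
        exact hx' hx.1
  · rcases h' with ⟨x', y', h1', v', w', h2', hx', hy', hR', hS'⟩ | ⟨hR', hS'⟩
    · exfalso
      rcases hR with h0 | ⟨x, y, h1, hx, h0⟩
      · exact EE.pt_ne_zero he h1' (hR'.symm.trans h0)
      · obtain ⟨rfl, rfl⟩ := EE.pt_inj he (hR'.symm.trans h0)
        exact hx hx'.1
    · rw [hS, hS']

theorem spec_alg {N y u n d : L} (hN : N * u ^ 2 = n) (hd : y ^ 2 * u ^ 3 = d)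
    (hy : y ≠ 0) (hd0 : d ≠ 0) : (N / (2 * y)) ^ 2 * u = n ^ 2 / (2 ^ 2 * d) := by
  have h1 : (2 * y) ^ 2 ≠ 0 := pow_ne_zero _ (mul_ne_zero two_ne_zero hy)
  have h2 : (2 : L) ^ 2 * d ≠ 0 := mul_ne_zero (pow_ne_zero _ two_ne_zero) hd0
  rw [div_pow, div_mul_eq_mul_div, div_eq_div_iff h1 h2, ← hN, ← hd]
  ring

/-- the doubling formula at a point outside the ring -/
theorem spec_out (hK : spec_K C ψ) (heb : ∀ i, spec_V C ψ (e i) (b i)) {x y : L} (h : Eqn e x y)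
    (hx : x ∉ C) : ∃ (x₃ y₃ : L) (h₃ : Eqn e x₃ y₃),
      EE.pt he x y h + EE.pt he x y h = EE.pt he x₃ y₃ h₃ ∧ x₃ ∉ C := by
  have hmem : ∀ i, e i ∈ C := fun i => (heb i).1
  have hy : y ≠ 0 := by
    intro hy
    have h0 : (x - e 0) * (x - e 1) * (x - e 2) = 0 := by
      rw [← h, hy]; ring
    rcases mul_eq_zero.1 h0 with h1 | h1
    · rcases mul_eq_zero.1 h1 with h2 | h2
      · exact hx (by rw [sub_eq_zero.1 h2]; exact hmem 0)
      · exact hx (by rw [sub_eq_zero.1 h2]; exact hmem 1)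
    · exact hx (by rw [sub_eq_zero.1 h1]; exact hmem 2)
  obtain ⟨x₃, y₃, h₃, hadd, hx₃, -⟩ := EE.add_self he h hy
  refine ⟨x₃, y₃, h₃, hadd, ?_⟩
  intro hc
  obtain ⟨hx0, hu⟩ := spec_V_notin hK hx
  set u : L := x⁻¹ with hu'
  have hxu : x * u = 1 := mul_inv_cancel₀ hx0
  have f : ∀ i, spec_V C ψ (1 - e i * u) 1 := by
    intro i
    have := spec_V_sub (C := C) (ψ := ψ) spec_V_one (spec_V_mul (heb i) hu)
    rwa [mul_zero, sub_zero] at this
  have hn := spec_V_add (spec_V_add (spec_V_mul (f 0) (f 1)) (spec_V_mul (f 0) (f 2)))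
    (spec_V_mul (f 1) (f 2))
  have hd := spec_V_mul (spec_V_mul (f 0) (f 1)) (f 2)
  have h4 := spec_V_mul (spec_V_sq (spec_V_two (C := C) (ψ := ψ))) hd
  have h4ne : (2 : M) ^ 2 * (1 * 1 * 1) ≠ 0 := by norm_num
  have hq := spec_V_div hK (spec_V_sq hn) h4 h4ne
  have hr := spec_V_sub (spec_V_add hq (spec_V_mul (spec_V_add (spec_V_add (heb 0) (heb 1))
    (heb 2)) hu)) (spec_V_two (C := C) (ψ := ψ))
  have hs := spec_V_mul (spec_V_mk (ψ := ψ) hc) hu
  have hden : (1 - e 0 * u) * (1 - e 1 * u) * (1 - e 2 * u) ≠ 0 :=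
    (spec_V_inv hK hd (by norm_num)).1
  have hkey : x₃ * u = ((1 - e 0 * u) * (1 - e 1 * u) + (1 - e 0 * u) * (1 - e 2 * u) +
      (1 - e 1 * u) * (1 - e 2 * u)) ^ 2 / (2 ^ 2 * ((1 - e 0 * u) * (1 - e 1 * u) *
      (1 - e 2 * u))) + (e 0 + e 1 + e 2) * u - 2 := by
    have g0 : (x - e 0) * u = 1 - e 0 * u := by linear_combination hxu
    have g1 : (x - e 1) * u = 1 - e 1 * u := by linear_combination hxu
    have g2 : (x - e 2) * u = 1 - e 2 * u := by linear_combination hxu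
    have hyu : y ^ 2 * u ^ 3 = (1 - e 0 * u) * (1 - e 1 * u) * (1 - e 2 * u) := by
      rw [h, ← g0, ← g1, ← g2]
      ring
    have hN : ((x - e 0) * (x - e 1) + (x - e 0) * (x - e 2) + (x - e 1) * (x - e 2)) * u ^ 2 =
      (1 - e 0 * u) * (1 - e 1 * u) + (1 - e 0 * u) * (1 - e 2 * u) +
        (1 - e 1 * u) * (1 - e 2 * u) := by
      rw [← g0, ← g1, ← g2]
      ring
    have hA := spec_alg hN hyu hy hden
    rw [hx₃, ← hA]
    linear_combination (-2 : L) * hxu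
  rw [← hkey] at hr
  have := spec_V_uniq hr hs
  norm_num at this

omit [CharZero M] in
/-- the value of the derivative at a two-torsion point -/
theorem spec_der {b : Fin 3 → M} (hb : Function.Injective b) {v : M} (h : Eqn b v 0) :
    (v - b 0) * (v - b 1) + (v - b 0) * (v - b 2) + (v - b 1) * (v - b 2) ≠ 0 := by
  have h01 : b 0 - b 1 ≠ 0 := sub_ne_zero.2 (fun h => by have := hb h; simp at this)
  have h02 : b 0 - b 2 ≠ 0 := sub_ne_zero.2 (fun h => by have := hb h; simp at this)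
  have h12 : b 1 - b 2 ≠ 0 := sub_ne_zero.2 (fun h => by have := hb h; simp at this)
  have h0 : (v - b 0) * (v - b 1) * (v - b 2) = 0 := by
    rw [← h]; ring
  intro hc
  rcases mul_eq_zero.1 h0 with h1 | h1
  · rcases mul_eq_zero.1 h1 with h2 | h2
    · have hv : v = b 0 := sub_eq_zero.1 h2
      rw [hv] at hc
      have : (b 0 - b 1) * (b 0 - b 2) = 0 := by linear_combination hc
      rcases mul_eq_zero.1 this with h7 | h7
      · exact h01 h7
      · exact h02 h7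
    · have hv : v = b 1 := sub_eq_zero.1 h2
      rw [hv] at hc
      have : (b 0 - b 1) * (b 1 - b 2) = 0 := by linear_combination -hc
      rcases mul_eq_zero.1 this with h7 | h7
      · exact h01 h7
      · exact h12 h7
  · have hv : v = b 2 := sub_eq_zero.1 h1
    rw [hv] at hc
    have : (b 0 - b 2) * (b 1 - b 2) = 0 := by linear_combination hc
    rcases mul_eq_zero.1 this with h7 | h7
    · exact h02 h7
    · exact h12 h7

theorem spec_double (hK : spec_K C ψ) (heb : ∀ i, spec_V C ψ (e i) (b i)) {R : EE e} {S : EE b}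
    (hRS : spec_R he hb C ψ R S) : spec_R he hb C ψ (R + R) (S + S) := by
  rcases hRS with ⟨x, y, h, v, w, h', hx, hy, rfl, rfl⟩ | ⟨hR, rfl⟩
  · have hN := spec_V_add (spec_V_add (spec_V_mul (spec_V_sub hx (heb 0)) (spec_V_sub hx (heb 1)))
      (spec_V_mul (spec_V_sub hx (heb 0)) (spec_V_sub hx (heb 2))))
      (spec_V_mul (spec_V_sub hx (heb 1)) (spec_V_sub hx (heb 2)))
    have hS := spec_V_add (spec_V_add (heb 0) (heb 1)) (heb 2)
    have h2y := spec_V_mul (spec_V_two (C := C) (ψ := ψ)) hy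
    have h2x := spec_V_mul (spec_V_two (C := C) (ψ := ψ)) hx
    by_cases hw : w = 0
    · -- two-torsion value
      subst hw
      rw [EE.add_self_zero hb h']
      by_cases hy0 : y = 0
      · subst hy0
        rw [EE.add_self_zero he h]
        exact Or.inr ⟨Or.inl rfl, rfl⟩
      · obtain ⟨x₃, y₃, h₃, hadd, hx₃, -⟩ := EE.add_self he h hy0
        refine Or.inr ⟨Or.inr ⟨x₃, y₃, h₃, ?_, hadd⟩, rfl⟩
        intro hc
        have hv := spec_V_add (spec_V_sub (spec_V_mk (ψ := ψ) hc) hS) h2x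
        have hT := spec_V_mul hv (spec_V_sq h2y)
        have h2y0 : 2 * y ≠ 0 := mul_ne_zero two_ne_zero hy0
        have hkey : (x₃ - (e 0 + e 1 + e 2) + 2 * x) * (2 * y) ^ 2 =
            ((x - e 0) * (x - e 1) + (x - e 0) * (x - e 2) + (x - e 1) * (x - e 2)) ^ 2 := by
          rw [hx₃, ← div_mul_cancel₀ ((x - e 0) * (x - e 1) + (x - e 0) * (x - e 2) +
            (x - e 1) * (x - e 2)) h2y0]
          rw [div_mul_cancel₀ _ h2y0]
          rw [div_pow]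
          have h22 : (2 * y) ^ 2 ≠ 0 := pow_ne_zero _ h2y0
          field_simp
          ring
        rw [hkey] at hT
        have h0 := spec_V_uniq (spec_V_sq hN) hT
        have hz : (((v - b 0) * (v - b 1) + (v - b 0) * (v - b 2) + (v - b 1) * (v - b 2)) : M) ^ 2
            = 0 := by
          rw [h0]; ring
        exact spec_der hb h' (pow_eq_zero_iff two_ne_zero |>.1 hz)
    · -- good doubling
      have hy0 : y ≠ 0 := (spec_V_inv hK hy hw).1
      have h2w : (2 : M) * w ≠ 0 := mul_ne_zero two_ne_zero hw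
      obtain ⟨x₃, y₃, h₃, hadd, hx₃, hy₃⟩ := EE.add_self he h hy0
      obtain ⟨v₃, w₃, h₃', hadd', hv₃, hw₃⟩ := EE.add_self hb h' hw
      have hsl := spec_V_div hK hN h2y h2w
      have hX : spec_V C ψ x₃ v₃ := by
        rw [hx₃, hv₃]
        exact spec_V_sub (spec_V_add (spec_V_sq hsl) hS) h2x
      have hY : spec_V C ψ y₃ w₃ := by
        rw [hy₃, hw₃]
        exact spec_V_neg (spec_V_add (spec_V_mul hsl (spec_V_sub hX hx)) hy)
      exact Or.inl ⟨x₃, y₃, h₃, v₃, w₃, h₃', hX, hY, hadd, hadd'⟩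
  · rw [add_zero]
    refine Or.inr ⟨?_, rfl⟩
    rcases hR with rfl | ⟨x, y, h, hx, rfl⟩
    · exact Or.inl (add_zero 0)
    · obtain ⟨x₃, y₃, h₃, hadd, hx₃⟩ := spec_out he hK heb h hx
      exact Or.inr ⟨x₃, y₃, h₃, hx₃, hadd⟩

end

theorem st_SPEC (hPL : ST_PL) : ST_SPEC := by
  intro k Ω _ _ _ _ _ _ D p _ σ E₀ hfin hσ P e he b hb hbe
  have hval := (hPL k Ω D p σ E₀ hfin hσ P).1
  set ψ : P.C →+* E₀ := P.φ.codRestrict E₀ hval with hψ
  have hψv : ∀ x, ((ψ x : E₀) : ℂ_[p]) = P.φ x := fun x => rfl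
  have hK : spec_K P.C ψ := by
    intro x
    rw [← P.ker x]
    constructor
    · intro h
      rw [← hψv, h]; rfl
    · intro h
      apply Subtype.ext
      rw [hψv, h]; rfl
  have heb : ∀ i, spec_V P.C ψ (algebraMap k (LL D) (e i)) (b i) := by
    intro i
    obtain ⟨h1, h2⟩ := P.base (e i)
    refine ⟨h1, Subtype.ext ?_⟩
    rw [hψv, h2, hbe]
  have hex := fun R => spec_ex (C := P.C) (ψ := ψ) he hb heb R
  choose sp hsp using hex
  refine ⟨sp, ?_, ?_, ?_⟩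
  · exact spec_uniq he hb (hsp 0) (Or.inr ⟨Or.inl rfl, rfl⟩)
  · intro R
    exact spec_uniq he hb (hsp (R + R)) (spec_double he hb hK heb (hsp R))
  · intro x y h
    refine ⟨fun hx => ?_, fun hx => ?_⟩
    · exact spec_uniq he hb (hsp _) (Or.inr ⟨Or.inr ⟨x, y, h, hx, rfl⟩, rfl⟩)
    · have hy := spec_y heb h hx
      have h1 : spec_V P.C ψ x _ := spec_V_mk hx
      have h2 : spec_V P.C ψ y _ := spec_V_mk hy
      refine ⟨_, _, spec_Eqn heb h h1 h2, ?_, hψv _⟩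
      exact spec_uniq he hb (hsp _) (Or.inl ⟨x, y, h, _, _, spec_Eqn heb h h1 h2, h1, h2, rfl, rfl⟩)

end Pool.Agent.Helper22.TW
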